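import Mathlib
import Pool.Agent.W648.UN.Stm2

/-! # Landsberg unicorn: data from the family of periodic solutions (S_GDAT) -/

set_option autoImplicit false

open MeasureTheory Set Filter Topology
open scoped ContDiff

noncomputable section

namespace Pool.Agent.W965.UN.GData

open Pool.Agent.W648.UN

/-- coordinate vectors -/
def ee (i : Fin 2) : ℝ × ℝ := if i = 0 then (1, 0) else (0, 1)

/-- partial derivatives -/
def dd (i : Fin 2) (F : ℝ × ℝ → ℝ) : ℝ × ℝ → ℝ := fun z => fderiv ℝ F z (ee i)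

lemma dd_smooth {F : ℝ × ℝ → ℝ} (h : ContDiff ℝ ∞ F) (i : Fin 2) : ContDiff ℝ ∞ (dd i F) := by
  have h1 : ContDiff ℝ ∞ (fderiv ℝ F) := h.fderiv_right (m := ∞) (by decide)
  exact h1.clm_apply contDiff_const

lemma sm_diff {F : ℝ × ℝ → ℝ} (h : ContDiff ℝ ∞ F) : Differentiable ℝ F :=
  h.differentiable (by decide)

lemma dd_comm {F : ℝ × ℝ → ℝ} (h : ContDiff ℝ ∞ F) (i j : Fin 2) :
    dd i (dd j F) = dd j (dd i F) := by
  have h1 : ContDiff ℝ ∞ (fderiv ℝ F) := h.fderiv_right (m := ∞) (by decide)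
  have h2 : Differentiable ℝ (fderiv ℝ F) := h1.differentiable (by decide)
  have key : ∀ (k l : Fin 2) (z : ℝ × ℝ),
      dd k (dd l F) z = fderiv ℝ (fderiv ℝ F) z (ee k) (ee l) := by
    intro k l z
    have h3 : HasFDerivAt (fun w => fderiv ℝ F w (ee l))
        ((ContinuousLinearMap.apply ℝ ℝ (ee l)).comp (fderiv ℝ (fderiv ℝ F) z)) z :=
      (ContinuousLinearMap.apply ℝ ℝ (ee l)).hasFDerivAt.comp z (h2 z).hasFDerivAt
    have h4 : dd k (dd l F) z = fderiv ℝ (fun w => fderiv ℝ F w (ee l)) z (ee k) := rfl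
    rw [h4, h3.fderiv]
    rfl
  funext z
  rw [key, key]
  have h5 : IsSymmSndFDerivAt ℝ F z := (h.contDiffAt).isSymmSndFDerivAt (by
    rw [minSmoothness_of_isRCLikeNormedField]
    have : ((2 : ℕ∞) : WithTop ℕ∞) ≤ ((⊤ : ℕ∞) : WithTop ℕ∞) := WithTop.coe_le_coe.2 le_top
    exact this)
  exact h5 _ _

lemma hasD_t {F : ℝ × ℝ → ℝ} (h : ContDiff ℝ ∞ F) (R t : ℝ) :
    HasDerivAt (fun t => F (R, t)) (dd 1 F (R, t)) t := by
  have h1 : HasDerivAt (fun t : ℝ => (R, t)) ((0 : ℝ), (1 : ℝ)) t :=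
    (hasDerivAt_const t R).prodMk (hasDerivAt_id t)
  have h2 := (sm_diff h (R, t)).hasFDerivAt.comp_hasDerivAt t h1
  exact h2

lemma hasD_ts {F : ℝ × ℝ → ℝ} (h : ContDiff ℝ ∞ F) (R s t : ℝ) :
    HasDerivAt (fun t => F (R, t + s)) (dd 1 F (R, t + s)) t := by
  have h1 := hasD_t h R (t + s)
  have h2 : HasDerivAt (fun t : ℝ => t + s) 1 t := (hasDerivAt_id t).add_const s
  have h3 := h1.comp t h2
  rw [mul_one] at h3
  exact h3

lemma hasD_R {F : ℝ × ℝ → ℝ} (h : ContDiff ℝ ∞ F) (R t : ℝ) :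
    HasDerivAt (fun r => F (r, t)) (dd 0 F (R, t)) R := by
  have h1 : HasDerivAt (fun r : ℝ => (r, t)) ((1 : ℝ), (0 : ℝ)) R :=
    (hasDerivAt_id R).prodMk (hasDerivAt_const R t)
  have h2 := (sm_diff h (R, t)).hasFDerivAt.comp_hasDerivAt R h1
  exact h2

/-- derivative in the coordinates of the plane -/
lemma fd_x {F : ℝ × ℝ → ℝ} (h : ContDiff ℝ ∞ F) (x : Fin 2 → ℝ) (θ : ℝ) (j : Fin 2) :
    fderiv ℝ (fun z : Fin 2 → ℝ => F (z 0, θ + z 1)) x (Pi.single j (1 : ℝ) : Fin 2 → ℝ) =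
      dd j F (x 0, θ + x 1) := by
  have h0 : HasFDerivAt (fun z : Fin 2 → ℝ => z 0)
      (ContinuousLinearMap.proj (R := ℝ) (φ := fun _ : Fin 2 => ℝ) 0) x :=
    (ContinuousLinearMap.proj (R := ℝ) (φ := fun _ : Fin 2 => ℝ) 0).hasFDerivAt
  have h1 : HasFDerivAt (fun z : Fin 2 → ℝ => θ + z 1)
      (ContinuousLinearMap.proj (R := ℝ) (φ := fun _ : Fin 2 => ℝ) 1) x :=
    (ContinuousLinearMap.proj (R := ℝ) (φ := fun _ : Fin 2 => ℝ) 1).hasFDerivAt.const_add θ
  have h2 := (sm_diff h (x 0, θ + x 1)).hasFDerivAt.comp x (h0.prodMk h1)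
  have h3 : fderiv ℝ (fun z : Fin 2 → ℝ => F (z 0, θ + z 1)) x =
      (fderiv ℝ F (x 0, θ + x 1)).comp
        ((ContinuousLinearMap.proj (R := ℝ) (φ := fun _ : Fin 2 => ℝ) 0).prod
          (ContinuousLinearMap.proj (R := ℝ) (φ := fun _ : Fin 2 => ℝ) 1)) := h2.fderiv
  rw [h3]
  have h4 : ((ContinuousLinearMap.proj (R := ℝ) (φ := fun _ : Fin 2 => ℝ) 0).prod
          (ContinuousLinearMap.proj (R := ℝ) (φ := fun _ : Fin 2 => ℝ) 1))
      (Pi.single j (1 : ℝ) : Fin 2 → ℝ) = ee j := by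
    rw [ContinuousLinearMap.prod_apply]
    unfold ee
    fin_cases j <;> simp
  rw [ContinuousLinearMap.comp_apply, h4]
  rfl

/-- composed with a smooth map -/
lemma sm_comp {F : ℝ × ℝ → ℝ} (h : ContDiff ℝ ∞ F) :
    ContDiff ℝ ∞ (fun z : (Fin 2 → ℝ) × ℝ => F (z.1 0, z.2 + z.1 1)) := by
  apply h.comp
  apply ContDiff.prodMk
  · exact (contDiff_apply ℝ ℝ (0 : Fin 2)).comp contDiff_fst
  · exact contDiff_snd.add ((contDiff_apply ℝ ℝ (1 : Fin 2)).comp contDiff_fst)

/-- periodicity of derivatives -/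
lemma per_dd {F : ℝ × ℝ → ℝ} {R1 R2 T : ℝ}
    (h : ∀ R ∈ Ioo R1 R2, ∀ t, F (R, t + T) = F (R, t)) (i : Fin 2) :
    ∀ R ∈ Ioo R1 R2, ∀ t, dd i F (R, t + T) = dd i F (R, t) := by
  intro R hR t
  have h1 : (fun z : ℝ × ℝ => F (z + (0, T))) =ᶠ[𝓝 (R, t)] F := by
    have h2 : Tendsto (fun z : ℝ × ℝ => z.1) (𝓝 (R, t)) (𝓝 R) := continuous_fst.tendsto _
    filter_upwards [h2.eventually (isOpen_Ioo.mem_nhds hR)] with z hz
    have := h z.1 hz z.2
    have e : z + (0, T) = (z.1, z.2 + T) := by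
      ext <;> simp
    rw [e, this]
  have h3 := h1.fderiv_eq (𝕜 := ℝ)
  rw [fderiv_comp_add_right] at h3
  unfold dd
  have e : (R, t + T) = (R, t) + ((0 : ℝ), T) := by
    ext <;> simp
  rw [e, h3]

/-- composition -/
lemma dd_comp {M : ℝ → ℝ} (hM : Differentiable ℝ M) {V : ℝ × ℝ → ℝ} (hV : Differentiable ℝ V)
    (i : Fin 2) (z : ℝ × ℝ) : dd i (fun z => M (V z)) z = deriv M (V z) * dd i V z := by
  have h1 := (hM (V z)).hasDerivAt.comp_hasFDerivAt z (hV z).hasFDerivAt
  have h2 : fderiv ℝ (fun z => M (V z)) z = deriv M (V z) • fderiv ℝ V z := h1.fderiv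
  unfold dd
  rw [h2]
  rfl

lemma dd_mul {F G : ℝ × ℝ → ℝ} (hF : Differentiable ℝ F) (hG : Differentiable ℝ G)
    (i : Fin 2) (z : ℝ × ℝ) :
    dd i (fun z => F z * G z) z = F z * dd i G z + G z * dd i F z := by
  unfold dd
  rw [fderiv_fun_mul (hF z) (hG z)]
  simp

lemma dd_sub {F G : ℝ × ℝ → ℝ} (hF : Differentiable ℝ F) (hG : Differentiable ℝ G)
    (i : Fin 2) (z : ℝ × ℝ) :
    dd i (fun z => F z - G z) z = dd i F z - dd i G z := by
  unfold dd
  rw [fderiv_fun_sub (hF z) (hG z)]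
  simp

lemma dd_neg (F : ℝ × ℝ → ℝ) (i : Fin 2) (z : ℝ × ℝ) :
    dd i (fun z => -F z) z = -dd i F z := by
  unfold dd
  rw [fderiv_fun_neg]
  simp

theorem th (hS : S_STURM) : S_GDAT := by
  intro M u v R1 R2 T hM hR1 hR12 hT hu hv hut hvt hu0 hv0 hper hc
  set U : ℝ × ℝ → ℝ := fun z => u z.1 z.2 with hU
  set V : ℝ × ℝ → ℝ := fun z => v z.1 z.2 with hV
  have hMd : Differentiable ℝ M := hM.differentiable (by decide)
  have hM' : ContDiff ℝ ∞ (deriv M) := by
    have := (contDiff_infty_iff_deriv (𝕜 := ℝ)).1 hM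
    exact this.2
  have hM'd : Differentiable ℝ (deriv M) := hM'.differentiable (by decide)
  -- time derivatives
  have U1 : dd 1 U = V := by
    funext z
    have h1 := hasD_t hu z.1 z.2
    exact h1.unique (hut z.1 z.2)
  have V1 : dd 1 V = fun z => -U z - M (V z) := by
    funext z
    have h1 := hasD_t hv z.1 z.2
    exact h1.unique (hvt z.1 z.2)
  have sU : ContDiff ℝ ∞ U := hu
  have sV : ContDiff ℝ ∞ V := hv
  have P1 : ∀ i, dd 1 (dd i U) = dd i V := by
    intro i
    rw [dd_comm sU, U1]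
  have Q1 : ∀ i, dd 1 (dd i V) = fun z => -dd i U z - deriv M (V z) * dd i V z := by
    intro i
    rw [dd_comm sV, V1]
    funext z
    rw [dd_sub (F := fun z => -U z) (G := fun z => M (V z)) (sm_diff sU).neg
      (hMd.comp (sm_diff sV)), dd_neg, dd_comp hMd (sm_diff sV)]
  have A1 : ∀ i j, dd 1 (dd j (dd i U)) = dd j (dd i V) := by
    intro i j
    rw [dd_comm (dd_smooth sU i), P1]
  have B1 : ∀ i j, dd 1 (dd j (dd i V)) = fun z => -dd j (dd i U) z -
      deriv M (V z) * dd j (dd i V) z - deriv (deriv M) (V z) * dd i V z * dd j V z := by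
    intro i j
    rw [dd_comm (dd_smooth sV i), Q1]
    funext z
    rw [dd_sub (F := fun z => -dd i U z) (G := fun z => deriv M (V z) * dd i V z)
      (sm_diff (dd_smooth sU i)).neg
      ((hM'd.comp (sm_diff sV)).mul (sm_diff (dd_smooth sV i))), dd_neg,
      dd_mul (F := fun z => deriv M (V z)) (hM'd.comp (sm_diff sV)) (sm_diff (dd_smooth sV i)),
      dd_comp hM'd (sm_diff sV)]
    ring
  -- periodicity
  have pU : ∀ R ∈ Ioo R1 R2, ∀ t, U (R, t + T) = U (R, t) := fun R hR t => (hper R hR t).1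
  have pV : ∀ R ∈ Ioo R1 R2, ∀ t, V (R, t + T) = V (R, t) := fun R hR t => (hper R hR t).2
  -- values at the initial time
  have i1 : ∀ R, dd 0 U (R, 0) = -deriv M R := by
    intro R
    have h1 := hasD_R sU R 0
    have h2 : (fun r => U (r, 0)) = fun r => -M r := by
      funext r
      exact hu0 r
    rw [h2] at h1
    exact h1.unique (hMd R).hasDerivAt.neg
  have i2 : ∀ R, dd 0 V (R, 0) = 1 := by
    intro R
    have h1 := hasD_R sV R 0
    have h2 : (fun r => V (r, 0)) = fun r => r := by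
      funext r
      exact hv0 r
    rw [h2] at h1
    exact h1.unique (hasDerivAt_id R)
  have i3 : ∀ R, dd 1 U (R, 0) = R := by
    intro R
    rw [U1]
    exact hv0 R
  have i4 : ∀ R, dd 1 V (R, 0) = 0 := by
    intro R
    rw [V1]
    have h1 : U (R, 0) = -M R := hu0 R
    have h2 : V (R, 0) = R := hv0 R
    simp only [h1, h2]
    ring
  -- the determinant
  have hW : ∀ R ∈ Ioo R1 R2, ∀ t, dd 0 U (R, t) * dd 1 V (R, t) -
      dd 1 U (R, t) * dd 0 V (R, t) < 0 := by
    intro R hR t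
    set W : ℝ → ℝ := fun t => dd 0 U (R, t) * dd 1 V (R, t) - dd 1 U (R, t) * dd 0 V (R, t)
      with hWdef
    set mm : ℝ → ℝ := fun t => deriv M (V (R, t)) with hmm
    have hmc : Continuous mm :=
      hM'.continuous.comp (sV.continuous.comp (Continuous.prodMk_right R))
    have hWd : ∀ t, HasDerivAt W (-mm t * W t) t := by
      intro t
      have h1 := hasD_t (dd_smooth sU 0) R t
      have h2 := hasD_t (dd_smooth sU 1) R t
      have h3 := hasD_t (dd_smooth sV 0) R t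
      have h4 := hasD_t (dd_smooth sV 1) R t
      rw [P1] at h1 h2
      rw [Q1] at h3 h4
      have h5 := (h1.mul h4).sub (h2.mul h3)
      have e : dd 0 V (R, t) * dd 1 V (R, t) + dd 0 U (R, t) *
          (-dd 1 U (R, t) - deriv M (V (R, t)) * dd 1 V (R, t)) -
          (dd 1 V (R, t) * dd 0 V (R, t) + dd 1 U (R, t) *
            (-dd 0 U (R, t) - deriv M (V (R, t)) * dd 0 V (R, t))) = -mm t * W t := by
        rw [hWdef, hmm]
        ring
      rw [← e]
      exact h5
    set I : ℝ → ℝ := fun t => ∫ s in (0 : ℝ)..t, mm s with hI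
    have hId : ∀ t, HasDerivAt I (mm t) t := fun t =>
      intervalIntegral.integral_hasDerivAt_right (hmc.intervalIntegrable _ _)
        (hmc.stronglyMeasurableAtFilter _ _) hmc.continuousAt
    have hK : ∀ t, HasDerivAt (fun t => W t * Real.exp (I t)) 0 t := by
      intro t
      have h1 := (hWd t).mul (hId t).exp
      have e : -mm t * W t * Real.exp (I t) + W t * (Real.exp (I t) * mm t) = 0 := by ring
      rw [e] at h1
      exact h1
    have hconst := is_const_of_deriv_eq_zero (fun t => (hK t).differentiableAt)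
      (fun t => (hK t).deriv) t 0
    have hI0 : I 0 = 0 := by
      rw [hI]
      simp
    have hW0 : W 0 = -R := by
      rw [hWdef]
      simp only [i1, i2, i3, i4]
      ring
    rw [hI0, Real.exp_zero, mul_one, hW0] at hconst
    have hRpos : 0 < R := hR1.trans hR.1
    have hexp := Real.exp_pos (I t)
    by_contra hcon
    have hWt : 0 ≤ W t := not_lt.1 hcon
    have : 0 ≤ W t * Real.exp (I t) := mul_nonneg hWt hexp.le
    linarith
  -- zero counting
  have hst : ∀ R ∈ Ioo R1 R2, ∀ y : Fin 2 → ℝ, y ≠ 0 →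
      (∃ θ, dot (fun i => dd i V (R, θ)) y = 0 ∧ 0 < dot (fun i => dd i U (R, θ)) y) ∧
      ∀ θ θ', dot (fun i => dd i V (R, θ)) y = 0 → 0 < dot (fun i => dd i U (R, θ)) y →
        dot (fun i => dd i V (R, θ')) y = 0 → 0 < dot (fun i => dd i U (R, θ')) y →
        ∃ k : ℤ, θ' = θ + k * T := by
    intro R hR
    obtain ⟨c, hc0, hcT, hvc, hqc, huniq⟩ := hc R hR
    apply hS (fun θ i => dd i U (R, θ)) (fun θ i => dd i V (R, θ))
      (fun θ => deriv M (V (R, θ))) T c hc0 hcT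
    · intro θ i
      have h1 := hasD_t (dd_smooth sU i) R θ
      rw [P1] at h1
      exact h1
    · intro θ i
      have h1 := hasD_t (dd_smooth sV i) R θ
      rw [Q1] at h1
      exact h1
    · intro θ i
      exact per_dd pU i R hR θ
    · intro θ i
      exact per_dd pV i R hR θ
    · intro θ
      exact hW R hR θ
    · exact i4 R
    · have : dd 1 V (R, c) = -U (R, c) - M (V (R, c)) := by rw [V1]
      rw [this]
      exact hqc
    · rw [i3]
      exact hR1.trans hR.1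
    · rw [U1]
      exact hvc
    · intro θ h0 h1 h2
      apply huniq θ h0 h1
      have : dd 1 V (R, θ) = -U (R, θ) - M (V (R, θ)) := by rw [V1]
      rw [this] at h2
      exact h2
  refine ⟨fun x θ i => dd i U (x 0, θ + x 1), fun x θ i => dd i V (x 0, θ + x 1),
    fun x θ i j => dd j (dd i U) (x 0, θ + x 1), fun x θ i j => dd j (dd i V) (x 0, θ + x 1), ?_⟩
  refine { oU := ?_, sp := ?_, sq := ?_, sA := ?_, sB := ?_, dpt := ?_, dqt := ?_, dAt := ?_,
           dBt := ?_, dpx := ?_, dqx := ?_, syA := ?_, syB := ?_, pp := ?_, pq := ?_, pA := ?_,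
           pB := ?_, dt := ?_, ex := ?_, un := ?_ }
  · exact isOpen_Ioo.preimage (continuous_apply 0)
  · apply ContDiff.contDiffOn
    rw [contDiff_pi]
    intro i
    exact sm_comp (dd_smooth sU i)
  · apply ContDiff.contDiffOn
    rw [contDiff_pi]
    intro i
    exact sm_comp (dd_smooth sV i)
  · apply ContDiff.contDiffOn
    rw [contDiff_pi]
    intro i
    rw [contDiff_pi]
    intro j
    exact sm_comp (dd_smooth (dd_smooth sU i) j)
  · apply ContDiff.contDiffOn
    rw [contDiff_pi]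
    intro i
    rw [contDiff_pi]
    intro j
    exact sm_comp (dd_smooth (dd_smooth sV i) j)
  · intro x _ θ i
    have h1 := hasD_ts (dd_smooth sU i) (x 0) (x 1) θ
    rw [P1] at h1
    exact h1
  · intro x _ θ i
    have h1 := hasD_ts (dd_smooth sV i) (x 0) (x 1) θ
    rw [Q1] at h1
    exact h1
  · intro x _ θ i j
    have h1 := hasD_ts (dd_smooth (dd_smooth sU i) j) (x 0) (x 1) θ
    rw [A1] at h1
    exact h1
  · intro x _ θ i j
    have h1 := hasD_ts (dd_smooth (dd_smooth sV i) j) (x 0) (x 1) θ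
    rw [B1] at h1
    exact h1
  · intro x _ θ i j
    exact fd_x (dd_smooth sU i) x θ j
  · intro x _ θ i j
    exact fd_x (dd_smooth sV i) x θ j
  · intro x _ θ i j
    rw [dd_comm sU]
  · intro x _ θ i j
    rw [dd_comm sV]
  · intro x hx θ
    funext i
    have := per_dd pU i (x 0) hx (θ + x 1)
    have e : θ + T + x 1 = θ + x 1 + T := by ring
    rw [e, this]
  · intro x hx θ
    funext i
    have := per_dd pV i (x 0) hx (θ + x 1)
    have e : θ + T + x 1 = θ + x 1 + T := by ring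
    rw [e, this]
  · intro x hx θ
    funext i j
    have := per_dd (per_dd pU i) j (x 0) hx (θ + x 1)
    have e : θ + T + x 1 = θ + x 1 + T := by ring
    rw [e, this]
  · intro x hx θ
    funext i j
    have := per_dd (per_dd pV i) j (x 0) hx (θ + x 1)
    have e : θ + T + x 1 = θ + x 1 + T := by ring
    rw [e, this]
  · intro x hx θ
    exact (hW (x 0) hx (θ + x 1)).ne
  · intro x hx y hy
    obtain ⟨θ, h1, h2⟩ := (hst (x 0) hx y hy).1
    refine ⟨θ - x 1, ?_, ?_⟩
    · simp only [sub_add_cancel]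
      exact h1
    · simp only [sub_add_cancel]
      exact h2
  · intro x hx y hy θ θ' h1 h2 h3 h4
    obtain ⟨k, hk⟩ := (hst (x 0) hx y hy).2 (θ + x 1) (θ' + x 1) h1 h2 h3 h4
    exact ⟨k, by linarith⟩

end Pool.Agent.W965.UN.GData
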