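import Mathlib
import Pool.Agent.W648.UN.Stm2

/-! # Landsberg unicorn: geometric conclusion (S_GEO) -/

set_option autoImplicit false

open MeasureTheory Set Filter Topology
open scoped ContDiff

noncomputable section

namespace Pool.Agent.W965.UN.Geo

open Pool.Agent.W648.UN

lemma dot_sol2_p {p q : Fin 2 → ℝ} (h : det2 p q ≠ 0) (a b : ℝ) : dot p (sol2 p q a b) = a := by
  unfold dot sol2
  simp only [Matrix.cons_val_zero, Matrix.cons_val_one]
  rw [mul_div_assoc', mul_div_assoc', ← add_div, div_eq_iff h]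
  unfold det2
  ring

lemma dot_sol2_q {p q : Fin 2 → ℝ} (h : det2 p q ≠ 0) (a b : ℝ) : dot q (sol2 p q a b) = b := by
  unfold dot sol2
  simp only [Matrix.cons_val_zero, Matrix.cons_val_one]
  rw [mul_div_assoc', mul_div_assoc', ← add_div, div_eq_iff h]
  unfold det2
  ring

/-- a vector is determined by its products with `p`, `q` -/
lemma zero_of_dot {p q v : Fin 2 → ℝ} (h : det2 p q ≠ 0) (h1 : dot p v = 0) (h2 : dot q v = 0) :
    v = 0 := by
  unfold dot at h1 h2
  unfold det2 at h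
  funext i
  fin_cases i
  · have : (p 0 * q 1 - p 1 * q 0) * v 0 = 0 := by linear_combination q 1 * h1 - p 1 * h2
    rcases mul_eq_zero.1 this with h3 | h3
    · exact absurd h3 h
    · exact h3
  · have : (p 0 * q 1 - p 1 * q 0) * v 1 = 0 := by linear_combination p 0 * h2 - q 0 * h1
    rcases mul_eq_zero.1 this with h3 | h3
    · exact absurd h3 h
    · exact h3

section

variable {U : Set (Fin 2 → ℝ)} {T : ℝ} {p q : (Fin 2 → ℝ) → ℝ → Fin 2 → ℝ}
  {A B : (Fin 2 → ℝ) → ℝ → Fin 2 → Fin 2 → ℝ} {m1 m2 : (Fin 2 → ℝ) → ℝ → ℝ}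

lemma isT_thet (hd : GDat U T p q A B m1 m2) {x : Fin 2 → ℝ} (hx : x ∈ U) {y : Fin 2 → ℝ}
    (hy : y ≠ 0) : isT p q x y (thet p q x y) := by
  have h : ∃ θ, isT p q x y θ := hd.ex x hx y hy
  unfold thet
  rw [dif_pos h]
  exact Classical.choose_spec h

lemma smooth_fix {E : Type} [NormedAddCommGroup E] [NormedSpace ℝ E]
    {f : (Fin 2 → ℝ) → ℝ → E}
    (h : ContDiffOn ℝ ∞ (fun z : (Fin 2 → ℝ) × ℝ => f z.1 z.2) (U ×ˢ univ)) {x : Fin 2 → ℝ}
    (hx : x ∈ U) : ContDiff ℝ ∞ (f x) := by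
  rw [← contDiffOn_univ]
  have h1 : ContDiffOn ℝ ∞ (fun θ : ℝ => (x, θ)) univ :=
    (contDiff_const.prodMk contDiff_id).contDiffOn
  exact h.comp h1 (fun θ _ => ⟨hx, mem_univ _⟩)

/-- a smooth branch on an open set -/
lemma branch (hL : S_LOC) (hd : GDat U T p q A B m1 m2) {x : Fin 2 → ℝ} (hx : x ∈ U)
    {y : Fin 2 → ℝ} (hy : y ≠ 0) {θ : ℝ} (hθ : isT p q x y θ) :
    ∃ (V : Set (Fin 2 → ℝ)) (Θ : (Fin 2 → ℝ) → ℝ), IsOpen V ∧ y ∈ V ∧ Θ y = θ ∧
      ContDiffOn ℝ ∞ Θ V ∧ ∀ w ∈ V, w ≠ 0 ∧ isT p q x w (Θ w) := by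
  obtain ⟨Θ, hΘ, hΘ0, hΘ1⟩ := hL U T p q A B m1 m2 hd x hx y hy θ hθ
  have e1 : ∀ᶠ z in 𝓝 (x, y), ContinuousAt Θ z := by
    have h1 : ContDiffAt ℝ 1 Θ (x, y) := hΘ.of_le (by exact_mod_cast le_top)
    have h2 := h1.eventually (by decide)
    filter_upwards [h2] with z hz
    exact hz.continuousAt
  have e2 : ∀ᶠ z in 𝓝 (x, y), z.1 ∈ U := by
    have : Tendsto (fun z : (Fin 2 → ℝ) × (Fin 2 → ℝ) => z.1) (𝓝 (x, y)) (𝓝 x) :=
      continuous_fst.tendsto _
    exact this.eventually (hd.oU.mem_nhds hx)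
  have e3 : ∀ᶠ z in 𝓝 (x, y), z.2 ≠ 0 := by
    have : Tendsto (fun z : (Fin 2 → ℝ) × (Fin 2 → ℝ) => z.2) (𝓝 (x, y)) (𝓝 y) :=
      continuous_snd.tendsto _
    exact this.eventually (isOpen_ne.mem_nhds hy)
  obtain ⟨W, hW, hWo, hWx⟩ := eventually_nhds_iff.1 ((e1.and e2).and (e3.and hΘ1))
  refine ⟨{w | (x, w) ∈ W}, fun w => Θ (x, w), ?_, hWx, hΘ0, ?_, ?_⟩
  · exact hWo.preimage (Continuous.prodMk_right x)
  · intro w hw
    obtain ⟨⟨c1, c2⟩, c3, c4⟩ := hW (x, w) hw
    obtain ⟨Θ', hs, hs0, hs1⟩ := hL U T p q A B m1 m2 hd x c2 w c3 (Θ (x, w)) c4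
    have heq : Θ =ᶠ[𝓝 (x, w)] Θ' := by
      have hWn : ∀ᶠ z in 𝓝 (x, w), z ∈ W := hWo.mem_nhds hw
      have hclose : ∀ᶠ z in 𝓝 (x, w), T ≠ 0 → |Θ' z - Θ z| < |T| := by
        by_cases hT : T = 0
        · exact Eventually.of_forall (fun z h => absurd hT h)
        · have hcont : ContinuousAt (fun z => |Θ' z - Θ z|) (x, w) :=
            (hs.continuousAt.sub c1).abs
          have h0 : |Θ' (x, w) - Θ (x, w)| < |T| := by
            rw [hs0, sub_self, abs_zero]
            exact abs_pos.2 hT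
          have := hcont.eventually (gt_mem_nhds h0)
          filter_upwards [this] with z hz _
          exact hz
      filter_upwards [hWn, hclose, hs1] with z hz hc hz1
      obtain ⟨⟨_, d2⟩, d3, d4⟩ := hW z hz
      obtain ⟨k, hk⟩ := hd.un z.1 d2 z.2 d3 (Θ z) (Θ' z) d4.1 d4.2 hz1.1 hz1.2
      by_cases hT : T = 0
      · rw [hk, hT, mul_zero, add_zero]
      · have h2 := hc hT
        rw [hk, add_sub_cancel_left, abs_mul] at h2
        have hTp : 0 < |T| := abs_pos.2 hT
        have h3 : |(k : ℝ)| < 1 := by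
          by_contra hcon
          push Not at hcon
          nlinarith
        have h4 : k = 0 := by
          rw [← Int.cast_abs] at h3
          have h5 : |k| < 1 := by exact_mod_cast h3
          exact Int.abs_lt_one_iff.1 h5
        rw [hk, h4]
        simp
    have hsm : ContDiffAt ℝ ∞ Θ (x, w) := hs.congr_of_eventuallyEq heq
    have hin : ContDiffAt ℝ ∞ (fun w : Fin 2 → ℝ => (x, w)) w :=
      contDiffAt_const.prodMk contDiffAt_id
    exact (hsm.comp w hin).contDiffWithinAt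
  · intro w hw
    obtain ⟨_, c3, c4⟩ := hW (x, w) hw
    exact ⟨c3, c4⟩

/-- third derivatives of the spray -/
lemma third (hF : S_GF) (hL : S_LOC) (hY : S_GY) (hd : GDat U T p q A B m1 m2) {x : Fin 2 → ℝ}
    (hx : x ∈ U) {y : Fin 2 → ℝ} (hy : y ≠ 0) {θ : ℝ} (hθ : isT p q x y θ) (j k l : Fin 2)
    (D3 : Fin 2 → ℝ)
    (hD : ∀ i, D3 i = fderiv ℝ (fun w₂ => fderiv ℝ (fun w₁ => fderiv ℝ
                (fun u => GG p q A B x u i) w₁
                (Pi.single l (1 : ℝ) : Fin 2 → ℝ)) w₂ (Pi.single k (1 : ℝ) : Fin 2 → ℝ)) y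
              (Pi.single j (1 : ℝ) : Fin 2 → ℝ)) :
    dot (p x θ) D3 = 0 ∧
      dot (q x θ) D3 = - m2 x θ * q x θ j * q x θ k * q x θ l / dot (p x θ) y := by
  obtain ⟨V, Θ, hV, hyV, hΘy, hΘ, hVt⟩ := branch hL hd hx hy hθ
  obtain ⟨_, hG⟩ := hF U T p q A B m1 m2 hd
  have := hY (p x) (q x) (A x) (B x) (m1 x) (m2 x) V Θ (GG p q A B x) hV
    (smooth_fix hd.sp hx) (smooth_fix hd.sq hx) (smooth_fix hd.sA hx) (smooth_fix hd.sB hx)
    (hd.dpt x hx) (hd.dqt x hx) (hd.dAt x hx) (hd.dBt x hx) (hd.syA x hx) (hd.syB x hx)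
    (hd.dt x hx) hΘ (fun w hw => (hVt w hw).2.1) (fun w hw => (hVt w hw).2.2)
    (fun w hw => (hG x hx w (hVt w hw).1 (Θ w) (hVt w hw).2).2.1) y hyV j k l D3 hD
  rw [hΘy] at this
  exact this

end

/-- **Geometric conclusion.** -/
theorem th (hF : S_GF) (hL : S_LOC) (hY : S_GY) : S_GEO := by
  intro U T p q A B m1 m2 hd hm hall
  obtain ⟨hs, hG⟩ := hF U T p q A B m1 m2 hd
  have hB := hall 2 U (FF p q) (GG p q A B) hd.oU hs
    (by
      -- positivity
      intro x hx y hy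
      exact (isT_thet hd hx hy).2)
    (by
      -- homogeneity
      intro x hx y t ht
      by_cases hy : y = 0
      · rw [hy, smul_zero]
        have : FF p q x 0 = 0 := by
          unfold FF dot
          simp
        rw [this, mul_zero]
      · have h1 := isT_thet hd hx hy
        have hty : t • y ≠ 0 := smul_ne_zero ht.ne' hy
        have e : ∀ a : Fin 2 → ℝ, dot a (t • y) = t * dot a y := by
          intro a
          unfold dot
          simp only [Pi.smul_apply, smul_eq_mul]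
          ring
        have h2 : isT p q x (t • y) (thet p q x y) := by
          refine ⟨?_, ?_⟩
          · rw [e, h1.1, mul_zero]
          · rw [e]
            exact mul_pos ht h1.2
        rw [(hG x hx (t • y) hty _ h2).1, e]
        rfl)
    (by
      -- positive definite
      intro x hx y hy v hv
      have h1 := isT_thet hd hx hy
      obtain ⟨_, _, _, _, h5, _⟩ := hG x hx y hy _ h1
      set θ := thet p q x y
      have hsum : ∑ i : Fin 2, ∑ j : Fin 2,
          (1 / 2 : ℝ) * fderiv ℝ (fun w => fderiv ℝ (fun u => FF p q x u ^ 2) w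
              (Pi.single j (1 : ℝ) : Fin 2 → ℝ)) y (Pi.single i (1 : ℝ) : Fin 2 → ℝ)
            * v i * v j = dot (p x θ) v ^ 2 + dot (q x θ) v ^ 2 := by
        simp only [h5, Fin.sum_univ_two, dot]
        ring
      rw [hsum]
      by_contra hcon
      have h6 : dot (p x θ) v ^ 2 + dot (q x θ) v ^ 2 = 0 :=
        le_antisymm (not_lt.1 hcon) (by positivity)
      have h7 : dot (p x θ) v = 0 := by
        have k1 := sq_nonneg (dot (p x θ) v)
        have k2 := sq_nonneg (dot (q x θ) v)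
        have : dot (p x θ) v ^ 2 = 0 := by linarith
        exact pow_eq_zero_iff (two_ne_zero) |>.1 this
      have h8 : dot (q x θ) v = 0 := by
        have k1 := sq_nonneg (dot (p x θ) v)
        have k2 := sq_nonneg (dot (q x θ) v)
        have : dot (q x θ) v ^ 2 = 0 := by linarith
        exact pow_eq_zero_iff (two_ne_zero) |>.1 this
      exact hv (zero_of_dot (hd.dt x hx θ) h7 h8))
    (by
      -- spray
      intro x hx y hy l
      have h1 := isT_thet hd hx hy
      obtain ⟨_, h2, _, h4, h5, h6⟩ := hG x hx y hy _ h1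
      set θ := thet p q x y
      have hp := dot_sol2_p (hd.dt x hx θ) ((1 / 2) * quad (A x θ) y) ((1 / 2) * quad (B x θ) y)
      have hq := dot_sol2_q (hd.dt x hx θ) ((1 / 2) * quad (A x θ) y) ((1 / 2) * quad (B x θ) y)
      rw [← h2] at hp hq
      simp only [h4, h5, h6, Fin.sum_univ_two]
      unfold quad at hp hq
      unfold dot at hp hq ⊢
      linear_combination (p x θ l) * hp + (q x θ l) * hq)
    (by
      -- Landsberg
      intro x hx y hy j k l
      have h1 := isT_thet hd hx hy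
      obtain ⟨_, _, h3, _, _, _⟩ := hG x hx y hy _ h1
      have h4 := (third hF hL hY hd hx hy h1 j k l _ (fun i => rfl)).1
      set θ := thet p q x y
      simp only [h3]
      unfold dot at h4
      rw [Fin.sum_univ_two]
      unfold dot
      linear_combination (p x θ 0 * y 0 + p x θ 1 * y 1) * h4)
  obtain ⟨x, hx, θ, hmθ⟩ := hm
  set y := sol2 (p x θ) (q x θ) 1 0 with hy
  have hp : dot (p x θ) y = 1 := dot_sol2_p (hd.dt x hx θ) 1 0
  have hq : dot (q x θ) y = 0 := dot_sol2_q (hd.dt x hx θ) 1 0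
  have hy0 : y ≠ 0 := by
    intro h
    rw [h] at hp
    unfold dot at hp
    simp at hp
  have hT : isT p q x y θ := ⟨hq, by rw [hp]; exact one_pos⟩
  have hj : ∃ j, q x θ j ≠ 0 := by
    by_contra hcon
    push Not at hcon
    apply hd.dt x hx θ
    unfold det2
    rw [hcon 0, hcon 1]
    ring
  obtain ⟨j, hj⟩ := hj
  have h3 := (third hF hL hY hd hx hy0 hT j j j (fun _ => 0)
    (fun i => (hB x hx y hy0 i j j j).symm)).2
  rw [hp, div_one] at h3
  have h4 : dot (q x θ) (fun _ => 0) = 0 := by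
    unfold dot
    simp
  rw [h4] at h3
  have h5 : m2 x θ * q x θ j ^ 3 = 0 := by linear_combination h3
  rcases mul_eq_zero.1 h5 with h6 | h6
  · exact hmθ h6
  · exact hj (pow_eq_zero_iff (by norm_num) |>.1 h6)

end Pool.Agent.W965.UN.Geo
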